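import Pool.Agent.W541.DL.Stm

/-!
# DL-OTT: a maximal inequality of Ottaviani type
-/

set_option autoImplicit false

open MeasureTheory ProbabilityTheory Filter Topology

namespace Pool.Agent.W494.DL.OTT

theorem main : Pool.Agent.W541.DL.S_OTT := by
  classical
  intro Ω mΩ P N c l G F E Full hP hGm hGle hF hE hInd hEp hae
  let H : ℕ → Set Ω := fun j => {ω | l ≤ F j ω} \ ⋃ i ∈ Finset.range j, {ω | l ≤ F i ω}
  let B : ℕ → Set Ω := fun j => {ω | -c ≤ E j ω}
  have hFG : ∀ i j, i ≤ j → j < N → MeasurableSet[G j] {ω | l ≤ F i ω} := by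
    intro i j hij hj
    have h1 : MeasurableSet[G i] {ω | l ≤ F i ω} :=
      (hF i (by omega)) (measurableSet_Ici (a := l))
    exact hGm hij _ h1
  have hHG : ∀ j < N, MeasurableSet[G j] (H j) := by
    intro j hj
    apply @MeasurableSet.diff Ω (G j) _ _ (hFG j j le_rfl hj)
    apply @Finset.measurableSet_biUnion Ω ℕ (G j) _ (Finset.range j)
    intro i hi
    exact hFG i j (Finset.mem_range.1 hi).le hj
  have hHm : ∀ j < N, MeasurableSet (H j) := fun j hj => hGle j _ (hHG j hj)
  have hBm : ∀ j < N, MeasurableSet (B j) := fun j hj =>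
    measurableSet_le measurable_const (hE j hj)
  have hBc : ∀ j < N, MeasurableSet[MeasurableSpace.comap (E j) inferInstance] (B j) := by
    intro j _
    exact ⟨Set.Ici (-c), measurableSet_Ici, rfl⟩
  have hprod : ∀ j < N, P.real (H j ∩ B j) = P.real (H j) * P.real (B j) := by
    intro j hj
    have h1 := (Indep_iff _ _ _).1 (hInd j hj) (H j) (B j) (hHG j hj) (hBc j hj)
    unfold Measure.real
    rw [h1, ENNReal.toReal_mul]
  have hdisj : ∀ i j, i < j → Disjoint (H i) (H j) := by
    intro i j hij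
    rw [Set.disjoint_left]
    intro ω h1 h2
    exact h2.2 (Set.mem_biUnion (Finset.mem_coe.2 (Finset.mem_range.2 hij)) h1.1)
  have hdisj' : Set.PairwiseDisjoint (↑(Finset.range N)) (fun j => H j ∩ B j) := by
    intro i _ j _ hij
    rcases lt_or_gt_of_ne hij with h | h
    · exact (hdisj i j h).mono Set.inter_subset_left Set.inter_subset_left
    · exact (hdisj j i h).symm.mono Set.inter_subset_left Set.inter_subset_left
  have hle1 : P.real {ω | ∃ j < N, l ≤ F j ω} ≤ ∑ j ∈ Finset.range N, P.real (H j) := by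
    have hsub : {ω | ∃ j < N, l ≤ F j ω} ⊆ ⋃ j ∈ Finset.range N, H j := by
      intro ω hω
      have hex : ∃ j, j < N ∧ l ≤ F j ω := by
        obtain ⟨j, hj, h⟩ := hω
        exact ⟨j, hj, h⟩
      have h1 := Nat.find_spec hex
      refine Set.mem_biUnion (Finset.mem_coe.2 (Finset.mem_range.2 h1.1)) ⟨h1.2, ?_⟩
      intro h2
      simp only [Set.mem_iUnion, Finset.mem_range, Set.mem_ofPred_eq] at h2
      obtain ⟨i, hi, hi'⟩ := h2
      exact Nat.find_min hex hi ⟨by omega, hi'⟩
    refine (measureReal_mono hsub (measure_ne_top _ _)).trans ?_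
    exact measureReal_biUnion_finset_le _ _
  have hle2 : ∑ j ∈ Finset.range N, P.real (H j ∩ B j) ≤ P.real {ω | l - c ≤ Full ω} := by
    rw [← measureReal_biUnion_finset hdisj'
      (fun j hj => (hHm j (Finset.mem_range.1 hj)).inter (hBm j (Finset.mem_range.1 hj)))]
    unfold Measure.real
    apply ENNReal.toReal_mono (measure_ne_top _ _)
    apply measure_mono_ae
    filter_upwards [hae] with ω hω hmem
    obtain ⟨j, hj, h1, h2⟩ := Set.mem_iUnion₂.1 hmem
    have h3 := hω j (Finset.mem_range.1 hj) h1.1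
    have h4 : -c ≤ E j ω := h2
    have h5 : l ≤ F j ω := h1.1
    change l - c ≤ Full ω
    linarith
  have hle3 : ∑ j ∈ Finset.range N, P.real (H j) ≤ 2 * ∑ j ∈ Finset.range N, P.real (H j ∩ B j) := by
    rw [Finset.mul_sum]
    apply Finset.sum_le_sum
    intro j hj
    have hj' := Finset.mem_range.1 hj
    rw [hprod j hj']
    have h1 := hEp j hj'
    have h2 : 0 ≤ P.real (H j) := measureReal_nonneg
    have h3 : P.real (B j) = P.real {ω | -c ≤ E j ω} := rfl
    rw [h3]
    nlinarith
  linarith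

end Pool.Agent.W494.DL.OTT
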